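import Pool.Agent.R424.IP.Main

/-!
# MP_a60a76_nt: congruences between two one-parameter families at integral parameters, for all primes
# at once

Let `j = F/G` and `j' = F'/G'` be rational functions over `ℚ` in lowest terms (the second one may be
constant), and let `π ≠ ρ` be rational numbers each of which is a pole of exactly one of `j`, `j'`.
For example `j` and `j'` are the invariants of the Legendre families `y² = x(x - 1)(x - t)` and
`y² = x(x - 1)(x - t - c)` for an integer `c ≠ 0`, or `j` has two rational poles and `j'` is the
invariant of a fixed curve.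

**Theorem.** For all integers `|t| ≤ X`, with at most `C (log X) ^ k` exceptions: for EVERY number
field `L`, EVERY prime `p ≥ 13` larger than `[L : ℚ]` and the degrees of `G` and `G'`, and ALL
elliptic curves `E`, `E'` over `L` with invariants `j(t)` and `j'(t)` the fields `L(E[p])` and
`L(E'[p])` are different; in particular `E` and `E'` are not `p`-congruent.

Here `C` and `k` depend only on `j` and `j'`. All primes `p` and all number fields (of degree less than
`p`) are treated at once; for `L = ℚ` the primes are all `p ≥ 13` larger than the degrees, in the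
examples all `p ≥ 13`. (For a single prime `p` the number of exceptional `t` is finite by theorems of
Siegel and Faltings, but without uniformity in `p`.)

Proof. Let `π` be a pole of `j` and not of `j'`, `b t - a` the corresponding linear form. If the
`p`-division fields are equal then by the local theorem of helper673 (`Pool.Agent.Y673.FM.loc`, which
also covers the places above `p`) `p` divides the valuation of `j(t)` at the places above each prime
`q` outside a finite set `S` with `q ∣ b t - a`, so `p` divides the exponent of `q` in `b t - a`. So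
`b t - a = s y ^ p` and `b' t - a' = s' z ^ p` with `s`, `s'` composed of primes of `S` with
exponents less than `p`. For given `p`, `s`, `s'` two solutions `|t₁| ≤ |t₂|` satisfy
`|t₂| ≥ 2 |t₁|`, by a gap principle whose constants do not depend on `p`, `s`, `s'`; and for
`p > log (C X)` both linear forms are composed of primes of `S`.
-/

set_option autoImplicit false

open WeierstrassCurve Polynomial

namespace Pool.Agent.Results.MP_a60a76_nt.IntegralParameters

section
variable {K : Type} [Field K]

/-- The curve `y² = x³ + Ax + B` over the field `K`. -/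
def curve (A B : K) : WeierstrassCurve K := ⟨0, 0, 0, A, B⟩

/-- Its `j`-invariant. -/
noncomputable def invariant (A B : K) : K := 1728 * (4 * A ^ 3) / (4 * A ^ 3 + 27 * B ^ 2)

open scoped Classical in
/-- The group of its points over the algebraic closure of `K`. -/
abbrev Points (A B : K) : Type := ((curve A B).baseChange (AlgebraicClosure K)).toAffine.Point

open scoped Classical in
/-- The action of an automorphism `σ` of the algebraic closure on the points. -/
noncomputable def galois (A B : K) (σ : AlgebraicClosure K ≃ₐ[K] AlgebraicClosure K) :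
    Points A B →+ Points A B :=
  WeierstrassCurve.Affine.Point.map (σ : AlgebraicClosure K →ₐ[K] AlgebraicClosure K)

open scoped Classical in
/-- The curves `y² = x³ + Ax + B` and `y² = x³ + A'x + B'` are `p`-congruent over `K`: some map between
the groups of points restricts to a bijective additive map between the groups of points killed by `p`
which commutes with the Galois group. -/
def Congruent (p : ℕ) (A B A' B' : K) : Prop :=
  ∃ f : Points A B → Points A' B', (∀ P Q, p • P = 0 → p • Q = 0 → f (P + Q) = f P + f Q) ∧
    Set.BijOn f {P | p • P = 0} {Q | p • Q = 0} ∧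
    ∀ (σ : AlgebraicClosure K ≃ₐ[K] AlgebraicClosure K) (P : Points A B), p • P = 0 →
      f (galois A B σ P) = galois A' B' σ (f P)

open scoped Classical in
/-- The curves have the same `p`-division field over `K`: an automorphism of the algebraic closure
fixes the points killed by `p` of the first curve if and only if it fixes those of the second. -/
def SameDivisionField (p : ℕ) (A B A' B' : K) : Prop :=
  ∀ σ : AlgebraicClosure K ≃ₐ[K] AlgebraicClosure K,
    (∀ P : Points A B, p • P = 0 → galois A B σ P = P) ↔
      (∀ Q : Points A' B', p • Q = 0 → galois A' B' σ Q = Q)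

end

/-- The rational number `π` is a pole of exactly one of two rational functions with the
denominators `G`, `G'` (in lowest terms). -/
def PoleOfOne (G G' : ℚ[X]) (π : ℚ) : Prop :=
  (G.eval π = 0 ∧ G'.eval π ≠ 0) ∨ (G.eval π ≠ 0 ∧ G'.eval π = 0)

/-- The integer `t` is exceptional for `F/G` and `F'/G'`: it is not a pole, and for some prime `p ≥ 13`
larger than the degrees of `G` and `G'` and some number field `L` of degree less than `p` there are
elliptic curves over `L` with the invariants `F(t)/G(t)` and `F'(t)/G'(t)` and the same `p`-division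
field. -/
def Exceptional (F G F' G' : ℚ[X]) (t : ℤ) : Prop :=
  G.eval (t : ℚ) ≠ 0 ∧ G'.eval (t : ℚ) ≠ 0 ∧ ∃ p : ℕ, p.Prime ∧ 13 ≤ p ∧ G.natDegree < p ∧
    G'.natDegree < p ∧ ∃ (L : Type) (_ : Field L) (_ : NumberField L) (A B A' B' : L),
      Module.finrank ℚ L < p ∧ 4 * A ^ 3 + 27 * B ^ 2 ≠ 0 ∧ 4 * A' ^ 3 + 27 * B' ^ 2 ≠ 0 ∧
      invariant A B = ((F.eval (t : ℚ) / G.eval (t : ℚ) : ℚ) : L) ∧
      invariant A' B' = ((F'.eval (t : ℚ) / G'.eval (t : ℚ) : ℚ) : L) ∧
      SameDivisionField p A B A' B'

/-- **Two families at integral parameters.** For rational functions `F/G`, `F'/G'` in lowest terms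
and rational numbers `π ≠ ρ`, each a pole of exactly one of them, there are `C` and `k` such that for
`X ≥ 2` at most `C (log X) ^ k` integers `|t| ≤ X` are exceptional. Congruent curves have the same
division field. -/
theorem result :
    (∀ F G F' G' : ℚ[X], IsCoprime F G → IsCoprime F' G' → G ≠ 0 → G' ≠ 0 → ∀ π ρ : ℚ, π ≠ ρ →
      PoleOfOne G G' π → PoleOfOne G G' ρ → ∃ (C : ℝ) (k : ℕ), ∀ X : ℕ, 2 ≤ X →
        (({t : ℤ | |t| ≤ (X : ℤ) ∧ Exceptional F G F' G' t} : Set ℤ).ncard : ℝ) ≤
          C * Real.log X ^ k) ∧
    ∀ (K : Type) [Field K] [CharZero K] (p : ℕ) (A B A' B' : K), Congruent p A B A' B' →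
      SameDivisionField p A B A' B' := by
  have hinv : ∀ {K : Type} [Field K] (A B : K), Pool.Agent.Y673.Loc.jv A B = invariant A B := by
    intro K _ A B
    unfold Pool.Agent.Y673.Loc.jv invariant
    ring
  refine ⟨?_, ?_⟩
  · intro F G F' G' hcop hcop' hG hG' π ρ hπρ hπ hρ
    obtain ⟨C, k, h⟩ := Pool.Agent.R424.IP.FM_count F G F' G' hcop hcop' hG hG' π ρ hπρ hπ hρ
    refine ⟨C, k, fun X hX => le_trans ?_ (h X hX)⟩
    have hfin : ({t : ℤ | |t| ≤ (X : ℤ) ∧ ∃ p, Pool.Agent.R424.IP.Rel F G F' G' t p} :
        Set ℤ).Finite := by
      refine (Finset.finite_toSet (Finset.Icc (-(X : ℤ)) X)).subset ?_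
      rintro t ⟨ht, -⟩
      rw [Finset.mem_coe, Finset.mem_Icc]
      exact abs_le.1 ht
    refine Nat.cast_le.2 (Set.ncard_le_ncard ?_ hfin)
    rintro t ⟨g0, g1, g2, p, g3, g4, g5, g6, L, iF, iN, A, B, A', B', g7, g8, g9, g10, g11, g12⟩
    refine ⟨g0, p, g1, g2, g3, g4, g5, g6, L, iF, iN, A, B, A', B', g7, g8, g9, ?_, ?_, g12⟩
    · rw [hinv, g10, eq_ratCast]
    · rw [hinv, g11, eq_ratCast]
  · intro K _ _ p A B A' B' ⟨f, h1, h2, h3⟩
    exact Pool.Agent.Y673.FM.sameF_of f h2 h3

end Pool.Agent.Results.MP_a60a76_nt.IntegralParameters
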