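import Pool.Agent.Results.MP_a60a76_nt.InvariantWindows
import Pool.Agent.R559.NP.Near

/-!
# Curves with invariant near a given point are not congruent to a given curve modulo a prime `p > 17`

Let `P ≥ 17` and let `φ` be any map from the rational numbers to a metric space `X`, for example the inclusion in `ℝ` or in
`ℚ_l`.  For all `ξ ∈ X` outside a set of Hausdorff dimension at most `7 / (2 P τ)` and for EVERY elliptic curve `E₀` over `ℚ`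
only finitely many rational numbers `j` with `dist (φ j) ξ ≤ c H(j) ^ (-τ)` are invariants of elliptic curves over `ℚ` which
are `p`-congruent to `E₀` for some prime `p ≥ P`.  For `P = 19` these are all primes of the conjecture; for `τ > 7 / 38` the
assertion holds for almost all real `ξ`.
-/

set_option autoImplicit false

open WeierstrassCurve
open scoped Classical

namespace Pool.Agent.Results.MP_a60a76_nt.PartnersNearAPoint

open Filter Topology MeasureTheory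
open InvariantWindows (Congruent jInvariant ht)

/-- the invariants of the elliptic curves over `ℚ` which are `p`-congruent to `y² = x³ + A₀x + B₀` for some prime `p ≥ P` -/
def Partners (P : ℕ) (A₀ B₀ : ℤ) : Set ℚ :=
  {j | ∃ A B : ℚ, 4 * A ^ 3 + 27 * B ^ 2 ≠ 0 ∧ jInvariant A B = j ∧
      ∃ p : ℕ, p.Prime ∧ P ≤ p ∧ Congruent p A B (A₀ : ℚ) (B₀ : ℚ)}

lemma one_le_ht (j : ℚ) : (1 : ℝ) ≤ (ht j : ℝ) := by
  have h1 : 1 ≤ j.den := j.den_pos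
  have h2 : 1 ≤ ht j := h1.trans (le_max_right _ _)
  exact_mod_cast h2

/-- **Theorem.** Let `P ≥ 17` and `τ > 0`.
(1) Let `φ` be a map from `ℚ` to a metric space `X`.  For all `ξ ∈ X` outside a set of Hausdorff dimension at most
`7 / (2 P τ)`, EVERY elliptic curve `E₀ : y² = x³ + A₀x + B₀` over `ℚ`, `A₀`, `B₀` integers, and every `c` only finitely many
rational numbers `j` with `dist (φ j) ξ ≤ c H(j) ^ (-τ)` are invariants of elliptic curves over `ℚ` which are `p`-congruent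
to `E₀` for some prime `p ≥ P`.
(2) If `μ` is a measure on `X` for which the closed balls of radius `r` have measure at most `C₀ r ^ m`, and
`7 / (2 P) < τ m`, the same holds for `μ`-almost all `ξ`.
(3) If `τ > 7 / 38`, then for almost all real `ξ`, EVERY `E₀` and every `c` only finitely many rational numbers `j` with
`|j - ξ| ≤ c H(j) ^ (-τ)` are invariants of elliptic curves over `ℚ` which are `p`-congruent to `E₀` for some prime
`p > 17`. -/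
theorem result :
    (∀ (P : ℕ) (τ : ℝ), 17 ≤ P → 0 < τ → ∀ (X : Type) [MetricSpace X] (φ : ℚ → X),
      (∃ E : Set X, dimH E ≤ ENNReal.ofReal (7 / (2 * P) / τ) ∧ ∀ ξ : X, ξ ∉ E →
        ∀ A₀ B₀ : ℤ, 4 * A₀ ^ 3 + 27 * B₀ ^ 2 ≠ 0 → ∀ c : ℝ,
          {j : ℚ | dist (φ j) ξ ≤ c * (ht j : ℝ) ^ (-τ) ∧ j ∈ Partners P A₀ B₀}.Finite) ∧
      (∀ [MeasurableSpace X] (μ : Measure X) (C₀ m : ℝ),
        (∀ (x : X) (r : ℝ), 0 < r → μ (Metric.closedBall x r) ≤ ENNReal.ofReal (C₀ * r ^ m)) →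
        7 / (2 * P) < τ * m → ∀ᵐ ξ ∂μ, ∀ A₀ B₀ : ℤ, 4 * A₀ ^ 3 + 27 * B₀ ^ 2 ≠ 0 → ∀ c : ℝ,
          {j : ℚ | dist (φ j) ξ ≤ c * (ht j : ℝ) ^ (-τ) ∧ j ∈ Partners P A₀ B₀}.Finite)) ∧
    (∀ τ : ℝ, 7 / 38 < τ → ∀ᵐ ξ : ℝ, ∀ A₀ B₀ : ℤ, 4 * A₀ ^ 3 + 27 * B₀ ^ 2 ≠ 0 → ∀ c : ℝ,
      {j : ℚ | |(j : ℝ) - ξ| ≤ c * (ht j : ℝ) ^ (-τ) ∧ ∃ A B : ℚ, 4 * A ^ 3 + 27 * B ^ 2 ≠ 0 ∧
        jInvariant A B = j ∧ ∃ p : ℕ, p.Prime ∧ 17 < p ∧ Congruent p A B (A₀ : ℚ) (B₀ : ℚ)}.Finite) := by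
  have hmain : ∀ (P : ℕ) (τ : ℝ), 17 ≤ P → 0 < τ → ∀ (X : Type) [MetricSpace X] (φ : ℚ → X),
      (∃ E : Set X, dimH E ≤ ENNReal.ofReal (7 / (2 * P) / τ) ∧ ∀ ξ : X, ξ ∉ E →
        ∀ A₀ B₀ : ℤ, 4 * A₀ ^ 3 + 27 * B₀ ^ 2 ≠ 0 → ∀ c : ℝ,
          {j : ℚ | dist (φ j) ξ ≤ c * (ht j : ℝ) ^ (-τ) ∧ j ∈ Partners P A₀ B₀}.Finite) ∧
      (∀ [MeasurableSpace X] (μ : Measure X) (C₀ m : ℝ),
        (∀ (x : X) (r : ℝ), 0 < r → μ (Metric.closedBall x r) ≤ ENNReal.ofReal (C₀ * r ^ m)) →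
        7 / (2 * P) < τ * m → ∀ᵐ ξ ∂μ, ∀ A₀ B₀ : ℤ, 4 * A₀ ^ 3 + 27 * B₀ ^ 2 ≠ 0 → ∀ c : ℝ,
          {j : ℚ | dist (φ j) ξ ≤ c * (ht j : ℝ) ^ (-τ) ∧ j ∈ Partners P A₀ B₀}.Finite) := by
    intro P τ hP hτ X _ φ
    have hs : (0 : ℝ) ≤ 7 / (2 * P) := by positivity
    constructor
    · have key : ∀ z : ℤ × ℤ, ∃ E : Set X, dimH E ≤ ENNReal.ofReal (7 / (2 * P) / τ) ∧ ∀ ξ : X, ξ ∉ E →
          4 * z.1 ^ 3 + 27 * z.2 ^ 2 ≠ 0 → ∀ c : ℝ,
          {j : ℚ | dist (φ j) ξ ≤ c * (ht j : ℝ) ^ (-τ) ∧ j ∈ Partners P z.1 z.2}.Finite := by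
        rintro ⟨A₀, B₀⟩
        by_cases h0 : 4 * A₀ ^ 3 + 27 * B₀ ^ 2 ≠ 0
        · obtain ⟨E, h1, h2⟩ := Pool.Agent.R559.NP.near_dim (T := ℚ) (X := X) (H := fun j => (ht j : ℝ))
            one_le_ht (Bad := fun j => j ∈ Partners P A₀ B₀) hs hτ
            (fun ε hε => InvariantWindows.count P hP A₀ B₀ h0 ε hε) φ
          exact ⟨E, h1, fun ξ hξ _ c => h2 ξ hξ c⟩
        · exact ⟨∅, by simp, fun ξ _ h => absurd h h0⟩
      choose G hG1 hG2 using key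
      refine ⟨⋃ z, G z, ?_, fun ξ hξ A₀ B₀ h0 c => ?_⟩
      · rw [dimH_iUnion]
        exact iSup_le hG1
      · exact hG2 (A₀, B₀) ξ (fun h => hξ (Set.mem_iUnion.2 ⟨_, h⟩)) h0 c
    · intro _ μ C₀ m hμ hm
      have key : ∀ z : ℤ × ℤ, ∀ᵐ ξ ∂μ, 4 * z.1 ^ 3 + 27 * z.2 ^ 2 ≠ 0 → ∀ c : ℝ,
          {j : ℚ | dist (φ j) ξ ≤ c * (ht j : ℝ) ^ (-τ) ∧ j ∈ Partners P z.1 z.2}.Finite := by
        rintro ⟨A₀, B₀⟩
        by_cases h0 : 4 * A₀ ^ 3 + 27 * B₀ ^ 2 ≠ 0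
        · have h := Pool.Agent.R559.NP.near_ae (T := ℚ) (X := X) μ hμ (H := fun j => (ht j : ℝ))
            one_le_ht (Bad := fun j => j ∈ Partners P A₀ B₀) hs hm
            (fun ε hε => InvariantWindows.count P hP A₀ B₀ h0 ε hε) φ
          filter_upwards [h] with ξ hξ _ c
          exact hξ c
        · exact Filter.Eventually.of_forall fun ξ h => absurd h h0
      filter_upwards [ae_all_iff.2 key] with ξ hξ A₀ B₀ h0 c
      exact hξ (A₀, B₀) h0 c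
  refine ⟨hmain, fun τ hτ => ?_⟩
  have h := (hmain 19 τ (by norm_num) (by linarith) ℝ (fun j => (j : ℝ))).2 (volume : Measure ℝ) 2 1
    (fun x r hr => by
      rw [Real.volume_closedBall, Real.rpow_one]) (by push_cast; linarith)
  filter_upwards [h] with ξ hξ A₀ B₀ h0 c
  refine (hξ A₀ B₀ h0 c).subset ?_
  rintro j ⟨h1, A, B, h2, h3, p, h4, h5, h6⟩
  refine ⟨h1, A, B, h2, h3, p, h4, ?_, h6⟩
  -- a prime larger than 17 is at least 19
  by_contra hcon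
  have h7 : p = 18 := by omega
  subst h7
  exact absurd h4 (by norm_num)

end Pool.Agent.Results.MP_a60a76_nt.PartnersNearAPoint
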