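import Pool.Agent.Results.MP_a60a76_nt.InvariantWindows
import Pool.Agent.R482.ST.Star

/-!
# No curve with invariant of height near powers, orbits and other sequences is congruent to a given curve

Let `f_n`, `n = 0, 1, 2, …`, be positive functions on `(a, ∞)`, `a ≥ 0`, such that `f_n(t) / t` is nondecreasing, and such
that the sequence `f_n(t)` has exponent of convergence at most `τ` for each `t > a`: for instance `f_n(t) = t ^ (v_n)` for
exponents `v_n ≥ 1` (`τ = 0`; all powers, the powers `t ^ (3 ^ n)` of Mills, …), the orbits `f_n(t) = g (g (⋯ g (t)))` of any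
map `g` with `g(t) > t` and `g(t) / t` nondecreasing (`τ = 0`; for instance of `t² + c`), and `f_n(t) = v_n t`.
Let `θ < 1` and `P ≥ 17`. For all `α > a` outside a set of Hausdorff dimension at most `(7 / (2 P) + τ) / (1 - θ)`, EVERY
elliptic curve `E₀` over `ℚ` and every `c`, for all but finitely many `n` no elliptic curve over `ℚ` whose invariant `j` has
height `H(j)` with `|H(j) - f_n(α)| ≤ c f_n(α) ^ θ` is `p`-congruent to `E₀` for a prime `p ≥ P`.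
-/

set_option autoImplicit false

open WeierstrassCurve
open scoped Classical

namespace Pool.Agent.Results.MP_a60a76_nt.StarshapedInvariants

open InvariantWindows (jInvariant Congruent ht Exc count)

/-- the functions `f n` are positive on `(a, ∞)`, `a ≥ 0`, and `f n x / x` is nondecreasing there -/
def Starshaped (a : ℝ) (f : ℕ → ℝ → ℝ) : Prop :=
  0 ≤ a ∧ ∀ n : ℕ, ∀ x y : ℝ, a < x → x ≤ y → 0 < f n x ∧ f n x / x ≤ f n y / y

/-- for each `x > a` the exponent of convergence of the sequence `f n x` is at most `τ` -/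
def ExpLe (a : ℝ) (f : ℕ → ℝ → ℝ) (τ : ℝ) : Prop :=
  ∀ x : ℝ, a < x → ∀ t : ℝ, τ < t → Summable (fun n : ℕ => (f n x) ^ (-t))

/-- **Theorem.** Let `f` be starshaped functions on `(a, ∞)` of exponent of convergence at most `τ ≥ 0`, `θ < 1` and
`P ≥ 17`. There is a set `E` of Hausdorff dimension at most `(7 / (2 P) + τ) / (1 - θ)` such that for each `α > a` outside `E`,
EVERY elliptic curve `E₀ : y² = x³ + A₀x + B₀` over `ℚ`, `A₀`, `B₀` integers, and each `c`, for all but finitely many `n`: no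
elliptic curve `y² = x³ + Ax + B` over `ℚ` whose invariant has a height `H` with `|H - f_n(α)| ≤ c f_n(α) ^ θ` is
`p`-congruent to `E₀` for any prime `p ≥ P`. The functions `v_n x`, `v_n > 0`, are starshaped on `(0, ∞)`, of exponent `τ` if `v` has exponent of convergence at most
`τ`; the functions `x ^ (v_n)`, `v_n ≥ 1`, are starshaped on `(1, ∞)`, of exponent `0` if the sums of `exp (-t v_n)` converge
for `t > 0`; and the iterates of a map `g` with `g(x) > x` for `x > a` and `g(x) / x` nondecreasing are starshaped on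
`(a, ∞)`, of exponent `0`. -/
theorem result :
    (∀ (a : ℝ) (f : ℕ → ℝ → ℝ) (τ θ : ℝ) (P : ℕ), 17 ≤ P → Starshaped a f → 0 ≤ τ → ExpLe a f τ → θ < 1 →
      ∃ E : Set ℝ, dimH E ≤ ENNReal.ofReal ((7 / (2 * P) + τ) / (1 - θ)) ∧
        ∀ α : ℝ, a < α → α ∉ E → ∀ A₀ B₀ : ℤ, 4 * A₀ ^ 3 + 27 * B₀ ^ 2 ≠ 0 → ∀ c : ℝ,
          ∃ n₀ : ℕ, ∀ n : ℕ, n₀ ≤ n → ∀ A B : ℚ, 4 * A ^ 3 + 27 * B ^ 2 ≠ 0 →
            |(ht (jInvariant A B) : ℝ) - f n α| ≤ c * (f n α) ^ θ →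
              ∀ p : ℕ, p.Prime → P ≤ p → ¬ Congruent p A B (A₀ : ℚ) (B₀ : ℚ)) ∧
    (∀ (v : ℕ → ℝ) (τ : ℝ), (∀ n, 0 < v n) → (∀ t : ℝ, τ < t → Summable (fun n : ℕ => (v n) ^ (-t))) →
      Starshaped 0 (fun n x => v n * x) ∧ ExpLe 0 (fun n x => v n * x) τ) ∧
    (∀ v : ℕ → ℝ, (∀ n, 1 ≤ v n) → (∀ t : ℝ, 0 < t → Summable fun n : ℕ => Real.exp (-(t * v n))) →
      Starshaped 1 (fun n x => x ^ (v n)) ∧ ExpLe 1 (fun n x => x ^ (v n)) 0) ∧
    (∀ (a : ℝ) (g : ℝ → ℝ), 0 ≤ a → (∀ x y : ℝ, a < x → x ≤ y → g x / x ≤ g y / y) → (∀ x : ℝ, a < x → x < g x) →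
      Starshaped a (fun n x => g^[n] x) ∧ ExpLe a (fun n x => g^[n] x) 0) := by
  refine ⟨fun a f τ θ P hP hf hτ hE hθ1 => ?_, Pool.Agent.R482.ST.ex_mul, Pool.Agent.R482.ST.ex_pow,
    Pool.Agent.R482.ST.ex_orbit⟩
  have key : ∀ z : ℤ × ℤ, ∃ E : Set ℝ, dimH E ≤ ENNReal.ofReal ((7 / (2 * P) + τ) / (1 - θ)) ∧
      (4 * z.1 ^ 3 + 27 * z.2 ^ 2 ≠ 0 → ∀ α : ℝ, a < α → α ∉ E → ∀ c : ℝ,
        ∃ n₀ : ℕ, ∀ n : ℕ, n₀ ≤ n → ∀ j ∈ Exc P z.1 z.2, c * (f n α) ^ θ < |(ht j : ℝ) - f n α|) := by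
    rintro ⟨A₀, B₀⟩
    by_cases h0 : 4 * A₀ ^ 3 + 27 * B₀ ^ 2 ≠ 0
    · obtain ⟨E, h1, h2⟩ := Pool.Agent.R482.ST.windows (Exc P A₀ B₀) (fun j : ℚ => (ht j : ℝ)) hf hτ hE
        (s := 7 / (2 * P)) (by positivity) hθ1 (fun η hη => count P hP A₀ B₀ h0 η hη)
      exact ⟨E, h1, fun _ => h2⟩
    · exact ⟨∅, by simp, fun h => absurd h h0⟩
  choose G hG1 hG2 using key
  refine ⟨⋃ z, G z, ?_, fun α hα hαE A₀ B₀ h0 c => ?_⟩
  · rw [dimH_iUnion]
    exact iSup_le hG1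
  · rw [Set.mem_iUnion] at hαE
    push Not at hαE
    obtain ⟨n₀, hn⟩ := hG2 (A₀, B₀) h0 α hα (hαE (A₀, B₀)) c
    refine ⟨n₀, fun n hn1 A B hAB hw p hp hPp hcon => ?_⟩
    exact absurd (hn n hn1 (jInvariant A B) ⟨A, B, hAB, rfl, p, hp, hPp, hcon⟩) (not_lt.2 hw)

end Pool.Agent.Results.MP_a60a76_nt.StarshapedInvariants
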