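import Pool.Agent.R424.IP.Main2

/-!
# MP_a60a76_nt: no congruences between two one-parameter families at large integers `t`, for all primes
# `p ≥ (log |t|) ^ (1 - δ)`

Let `j = F/G` and `j' = F'/G'` be rational functions over `ℚ` in lowest terms (the second one may be
constant), and let `π ≠ ρ` be rational numbers each of which is a pole of exactly one of `j`, `j'`.
For example `j` and `j'` are the invariants of the Legendre families `y² = x(x - 1)(x - t)` and
`y² = x(x - 1)(x - t - c)` for an integer `c ≠ 0`, or `j` has two rational poles and `j'` is the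
invariant of a fixed curve.

**Theorem.** There are `δ > 0` and `T₀` such that for ALL integers `t` with `|t| ≥ T₀`, ALL primes
`p ≥ (log |t|) ^ (1 - δ)`, ALL number fields `L` of degree less than `p` and ALL elliptic curves `E`,
`E'` over `L` with invariants `j(t)` and `j'(t)` the fields `L(E[p])` and `L(E'[p])` are different; in
particular `E` and `E'` are not `p`-congruent. There are no exceptional `t`.

(The logarithmic height of the curves is of the order of `log |t|`. A bound linear in the height is
easy: a congruence modulo `p` gives `p`-th powers dividing `t - π`. The point is that `p` is smaller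
than a power of the height with an exponent less than `1`.)

Proof. Let `π` be a pole of `j` and not of `j'`, `b t - a` the corresponding linear form. If the
`p`-division fields are equal then by the local theorem of helper673 (`Pool.Agent.Y673.FM.loc`, which
also covers the places above `p`) `p` divides the exponent of each prime `q` outside a finite set `S`
in `b t - a`. So `b t - a = s y ^ p` and `b' t - a' = s' z ^ p` with `s`, `s'` composed of primes of
`S`, and `y`, `z` not divisible by these. The linear form
`Λ = log |b' (b t - a)| - log |b (b' t - a')|` in the logarithms of the primes of `S`, `b`, `b'`, `y`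
and `z` is not zero and `|Λ| ≤ C / |t|`. By the lower bound for linear forms in logarithms of
helper913 (`Pool.Agent.Y913.Nb.WB_dep`) `|Λ| ≥ 2 ^ (-g ^ κ)` if the integers are at most `2 ^ g`, and
one can take `g` of the order of `(log |t|) ^ δ` if `p ≥ (log |t|) ^ (1 - δ)`, since
`log y ≤ log |C t| / p`. With `δ κ ≤ 1 / 2` this is a contradiction for large `|t|`.
-/

set_option autoImplicit false

open WeierstrassCurve Polynomial

namespace Pool.Agent.Results.MP_a60a76_nt.SublinearPrimes

section
variable {K : Type} [Field K]

/-- The curve `y² = x³ + Ax + B` over the field `K`. -/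
def curve (A B : K) : WeierstrassCurve K := ⟨0, 0, 0, A, B⟩

/-- Its `j`-invariant. -/
noncomputable def invariant (A B : K) : K := 1728 * (4 * A ^ 3) / (4 * A ^ 3 + 27 * B ^ 2)

open scoped Classical in
/-- The group of its points over the algebraic closure of `K`. -/
abbrev Points (A B : K) : Type := ((curve A B).baseChange (AlgebraicClosure K)).toAffine.Point

open scoped Classical in
/-- The action of an automorphism `σ` of the algebraic closure on the points. -/
noncomputable def galois (A B : K) (σ : AlgebraicClosure K ≃ₐ[K] AlgebraicClosure K) :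
    Points A B →+ Points A B :=
  WeierstrassCurve.Affine.Point.map (σ : AlgebraicClosure K →ₐ[K] AlgebraicClosure K)

open scoped Classical in
/-- The curves `y² = x³ + Ax + B` and `y² = x³ + A'x + B'` are `p`-congruent over `K`: some map between
the groups of points restricts to a bijective additive map between the groups of points killed by `p`
which commutes with the Galois group. -/
def Congruent (p : ℕ) (A B A' B' : K) : Prop :=
  ∃ f : Points A B → Points A' B', (∀ P Q, p • P = 0 → p • Q = 0 → f (P + Q) = f P + f Q) ∧
    Set.BijOn f {P | p • P = 0} {Q | p • Q = 0} ∧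
    ∀ (σ : AlgebraicClosure K ≃ₐ[K] AlgebraicClosure K) (P : Points A B), p • P = 0 →
      f (galois A B σ P) = galois A' B' σ (f P)

open scoped Classical in
/-- The curves have the same `p`-division field over `K`: an automorphism of the algebraic closure
fixes the points killed by `p` of the first curve if and only if it fixes those of the second. -/
def SameDivisionField (p : ℕ) (A B A' B' : K) : Prop :=
  ∀ σ : AlgebraicClosure K ≃ₐ[K] AlgebraicClosure K,
    (∀ P : Points A B, p • P = 0 → galois A B σ P = P) ↔
      (∀ Q : Points A' B', p • Q = 0 → galois A' B' σ Q = Q)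

end

/-- The rational number `π` is a pole of exactly one of two rational functions with the
denominators `G`, `G'` (in lowest terms). -/
def PoleOfOne (G G' : ℚ[X]) (π : ℚ) : Prop :=
  (G.eval π = 0 ∧ G'.eval π ≠ 0) ∨ (G.eval π ≠ 0 ∧ G'.eval π = 0)

/-- **Two families at large integral parameters.** For rational functions `F/G`, `F'/G'` in lowest
terms and rational numbers `π ≠ ρ`, each a pole of exactly one of them, there are `δ > 0` and `T₀` such
that for all integers `|t| ≥ T₀`, all primes `p ≥ 13` with `p ≥ (log |t|) ^ (1 - δ)` and larger than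
the degrees of `G`, `G'`, and all number fields `L` of degree less than `p`, two elliptic curves over `L`
with the invariants `F(t)/G(t)`, `F'(t)/G'(t)` have different `p`-division fields. Congruent curves
have the same division field. -/
theorem result :
    (∀ F G F' G' : ℚ[X], IsCoprime F G → IsCoprime F' G' → G ≠ 0 → G' ≠ 0 → ∀ π ρ : ℚ, π ≠ ρ →
      PoleOfOne G G' π → PoleOfOne G G' ρ → ∃ δ : ℝ, 0 < δ ∧ δ < 1 ∧ ∃ T₀ : ℕ, ∀ t : ℤ,
        (T₀ : ℤ) ≤ |t| → G.eval (t : ℚ) ≠ 0 → G'.eval (t : ℚ) ≠ 0 → ∀ p : ℕ, p.Prime → 13 ≤ p →
        G.natDegree < p → G'.natDegree < p → Real.log |(t : ℝ)| ^ (1 - δ) ≤ p →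
        ∀ (L : Type) [Field L] [NumberField L], Module.finrank ℚ L < p → ∀ A B A' B' : L,
          4 * A ^ 3 + 27 * B ^ 2 ≠ 0 → 4 * A' ^ 3 + 27 * B' ^ 2 ≠ 0 →
          invariant A B = ((F.eval (t : ℚ) / G.eval (t : ℚ) : ℚ) : L) →
          invariant A' B' = ((F'.eval (t : ℚ) / G'.eval (t : ℚ) : ℚ) : L) →
          ¬ SameDivisionField p A B A' B') ∧
    ∀ (K : Type) [Field K] [CharZero K] (p : ℕ) (A B A' B' : K), Congruent p A B A' B' →
      SameDivisionField p A B A' B' := by
  have hinv : ∀ {K : Type} [Field K] (A B : K), Pool.Agent.Y673.Loc.jv A B = invariant A B := by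
    intro K _ A B
    unfold Pool.Agent.Y673.Loc.jv invariant
    ring
  refine ⟨?_, ?_⟩
  · intro F G F' G' hcop hcop' hG hG' π ρ hπρ hπ hρ
    obtain ⟨δ, h0, h1, T₀, h⟩ :=
      Pool.Agent.R424.IP.FM_big F G F' G' hcop hcop' hG hG' π ρ hπρ hπ hρ
    refine ⟨δ, h0, h1, T₀, ?_⟩
    intro t ht g1 g2 p g3 g4 g5 g6 hp L iF iN g7 A B A' B' g8 g9 g10 g11 g12
    refine h t ht p hp ⟨g1, g2, g3, g4, g5, g6, L, iF, iN, A, B, A', B', g7, g8, g9, ?_, ?_, g12⟩
    · rw [hinv, g10, eq_ratCast]
    · rw [hinv, g11, eq_ratCast]
  · intro K _ _ p A B A' B' ⟨f, h1, h2, h3⟩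
    exact Pool.Agent.Y673.FM.sameF_of f h2 h3

end Pool.Agent.Results.MP_a60a76_nt.SublinearPrimes
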